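import Pool.Agent.H815.QC.Stm

set_option autoImplicit false

/-! The commutator subgroup is not abelian (project QC). -/

namespace Pool.Agent.H25.QC

open Pool.Agent.H815.QC
open scoped commutatorElement

theorem tf_zpow {N : Type} [Group N] (hT : TFr N) {e : N} (he : e ≠ 1) {k : ℤ} (h : e ^ k = 1) :
    k = 0 := by
  by_contra hk
  rcases lt_or_gt_of_ne hk with h1 | h1
  · have h2 : e ^ k.natAbs = 1 := by
      rw [← zpow_natCast, Int.ofNat_natAbs_of_nonpos h1.le, zpow_neg, h, inv_one]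
    exact hT e he _ (Int.natAbs_pos.mpr hk) h2
  · have h2 : e ^ k.natAbs = 1 := by
      rw [← zpow_natCast, Int.natAbs_of_nonneg h1.le, h]
    exact hT e he _ (Int.natAbs_pos.mpr hk) h2

theorem B6_proof : S_B6 := by
  rintro N _ H hT hC ⟨a, ha, b, hb, hab⟩
  by_contra hcon
  have hD : ∀ x ∈ ⁅H, H⁆, ∀ y ∈ ⁅H, H⁆, x * y = y * x := by
    intro x hx y hy
    by_contra h
    exact hcon ⟨x, hx, y, hy, h⟩
  have hDH : ⁅H, H⁆ ≤ H := by
    rw [Subgroup.commutator_le]
    intro g hg g' hg'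
    rw [commutatorElement_def]
    exact H.mul_mem (H.mul_mem (H.mul_mem hg hg') (H.inv_mem hg)) (H.inv_mem hg')
  have hd : ⁅a, b⁆ ∈ ⁅H, H⁆ := Subgroup.commutator_mem_commutator ha hb
  have hd1 : ⁅a, b⁆ ≠ 1 := fun h => hab (commutatorElement_eq_one_iff_mul_comm.mp h)
  obtain ⟨z, hz⟩ := hC _ (hDH hd) hd1
  have hDz : ⁅H, H⁆ ≤ Subgroup.zpowers z := fun x hx => hz x (hDH hx) (hD x hx _ hd)
  have hcy : IsCyclic (⁅H, H⁆ : Subgroup N) := Subgroup.isCyclic_of_le hDz
  obtain ⟨e, he⟩ := (Subgroup.isCyclic_iff_exists_zpowers_eq_top _).mp hcy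
  have heD : e ∈ ⁅H, H⁆ := by
    rw [← he]
    exact Subgroup.mem_zpowers e
  have heH : e ∈ H := hDH heD
  have he1 : e ≠ 1 := by
    rintro rfl
    rw [← he, Subgroup.zpowers_one_eq_bot, Subgroup.mem_bot] at hd
    exact hd1 hd
  have hnorm : ∀ l ∈ H, ∃ i : ℤ, l * e * l⁻¹ = e ^ i := by
    intro l hl
    have h1 : ⁅l, e⁆ ∈ ⁅H, H⁆ := Subgroup.commutator_mem_commutator hl heH
    have h2 : l * e * l⁻¹ ∈ ⁅H, H⁆ := by
      have h3 : l * e * l⁻¹ = ⁅l, e⁆ * e := by
        rw [commutatorElement_def]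
        group
      rw [h3]
      exact Subgroup.mul_mem _ h1 heD
    rw [← he, Subgroup.mem_zpowers_iff] at h2
    obtain ⟨i, hi⟩ := h2
    exact ⟨i, hi.symm⟩
  have hsq : ∀ l ∈ H, l * l * e = e * (l * l) := by
    intro l hl
    obtain ⟨i, hi⟩ := hnorm l hl
    obtain ⟨j, hj⟩ := hnorm l⁻¹ (H.inv_mem hl)
    have h1 : e ^ (i * j) = e := by
      calc e ^ (i * j) = (e ^ i) ^ j := zpow_mul _ _ _
        _ = (l * e * l⁻¹) ^ j := by rw [hi]
        _ = l * e ^ j * l⁻¹ := conj_zpow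
        _ = l * (l⁻¹ * e * l⁻¹⁻¹) * l⁻¹ := by rw [hj]
        _ = e := by group
    have h2 : e ^ (i * j - 1) = 1 := by
      rw [zpow_sub, h1, zpow_one, mul_inv_cancel]
    have h3 : i * j = 1 := by
      have := tf_zpow hT he1 h2
      omega
    have h4 : l * e = e ^ i * l := by
      rw [← hi]
      group
    have h5 : l * e ^ i = e ^ (i * i) * l := by
      have h6 : l * e ^ i * l⁻¹ = e ^ (i * i) := by
        rw [← conj_zpow, hi, ← zpow_mul]
      rw [← h6]
      group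
    have h7 : i * i = 1 := by
      rcases Int.eq_one_or_neg_one_of_mul_eq_one h3 with h8 | h8 <;> rw [h8] <;> norm_num
    rw [h7, zpow_one] at h5
    rw [mul_assoc, h4, ← mul_assoc, h5, mul_assoc]
  have hcomm : ∀ l ∈ H, l * e = e * l := by
    intro l hl
    by_cases hl1 : l = 1
    · rw [hl1, one_mul, mul_one]
    · have h1 : l * l ≠ 1 := by
        have := hT l hl1 2 (by norm_num)
        rwa [pow_two] at this
      obtain ⟨w, hw⟩ := hC (l * l) (H.mul_mem hl hl) h1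
      have h2 := hw l hl (mul_assoc _ _ _).symm
      have h3 := hw e heH (hsq l hl).symm
      rw [Subgroup.mem_zpowers_iff] at h2 h3
      obtain ⟨i, rfl⟩ := h2
      obtain ⟨j, hj⟩ := h3
      rw [← hj, ← zpow_add, ← zpow_add, add_comm]
  obtain ⟨w, hw⟩ := hC e heH he1
  have h1 := hw a ha (hcomm a ha)
  have h2 := hw b hb (hcomm b hb)
  rw [Subgroup.mem_zpowers_iff] at h1 h2
  obtain ⟨i, hi⟩ := h1
  obtain ⟨j, hj⟩ := h2
  apply hab
  rw [← hi, ← hj, ← zpow_add, ← zpow_add, add_comm]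

end Pool.Agent.H25.QC
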